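import Pool.Agent.H53.SpD

/-! Splitting methods of every order whose coefficients all have positive real part. -/

namespace Pool.Agent.Results.MP_18dddc_an.Full

open Filter Topology Set H53.Sp

/-- `y = e^{τ f} x`: `y` is the value at `s = 1` of a solution of `γ'(s) = τ f(γ(s))` on `[0,1]`
with `γ 0 = x`. -/
def Flow {d : ℕ} (f : EuclideanSpace ℂ (Fin d) → EuclideanSpace ℂ (Fin d)) (τ : ℂ)
    (x y : EuclideanSpace ℂ (Fin d)) : Prop :=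
  ∃ γ : ℝ → EuclideanSpace ℂ (Fin d), γ 0 = x ∧ γ 1 = y ∧
    ∀ s ∈ Icc (0 : ℝ) 1, HasDerivWithinAt γ (τ • f (γ s)) (Icc 0 1) s

/-- `z = e^{α₁ T f₀} e^{β₁ T f₁} ⋯ e^{α_k T f₀} e^{β_k T f₁} x` for the list
`[(α₁, β₁), …, (α_k, β_k)]`. -/
def Split {d : ℕ} (f₀ f₁ : EuclideanSpace ℂ (Fin d) → EuclideanSpace ℂ (Fin d)) (T : ℝ)
    (x : EuclideanSpace ℂ (Fin d)) : List (ℂ × ℂ) → EuclideanSpace ℂ (Fin d) → Prop
  | [], z => z = x
  | p :: l, z => ∃ v, (∃ u, Split f₀ f₁ T x l u ∧ Flow f₁ (p.2 * T) u v) ∧ Flow f₀ (p.1 * T) v z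

theorem result (N : ℕ) : ∃ l : List (ℂ × ℂ), l ≠ [] ∧ (∀ p ∈ l, 0 < p.1.re ∧ 0 < p.2.re) ∧
    ∀ (d : ℕ) (f₀ f₁ : EuclideanSpace ℂ (Fin d) → EuclideanSpace ℂ (Fin d)),
      ContDiff ℂ (⊤ : ℕ∞) f₀ → ContDiff ℂ (⊤ : ℕ∞) f₁ → ∀ x₀ : EuclideanSpace ℂ (Fin d),
      ∃ C T₀ : ℝ, 0 < T₀ ∧ ∀ T ∈ Ioo 0 T₀,
        (∃ y, Flow (f₀ + f₁) T x₀ y) ∧ (∃ z, Split f₀ f₁ T x₀ l z) ∧
        ∀ y z, Flow (f₀ + f₁) T x₀ y → Split f₀ f₁ T x₀ l z → ‖y - z‖ ≤ C * T ^ (N + 1) := by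
  obtain ⟨l, h1, h2, h3⟩ := model N
  refine ⟨l, h1, h2, fun d f₀ f₁ hf₀ hf₁ x₀ => ?_⟩
  let f : Bool → Hol (EuclideanSpace ℂ (Fin d)) := fun b =>
    match b with
    | false => ⟨f₀ + f₁, hf₀.add hf₁⟩
    | true => ⟨f₁, hf₁⟩
  have e0 : ((1 : ℂ) • f false + (-1 : ℂ) • f true).1 = f₀ := by ext1 x; simp [f]
  have e1 : ((0 : ℂ) • f false + (1 : ℂ) • f true).1 = f₁ := by ext1 x; simp [f]
  have e2 : ((1 : ℂ) • f false + (0 : ℂ) • f true).1 = f₀ + f₁ := by ext1 x; simp [f]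
  have m0 : (1 : ℂ) • M N false + (-1 : ℂ) • M N true = M N false - M N true := by
    ext1 u; simp [sub_eq_add_neg]
  have m1 : (0 : ℂ) • M N false + (1 : ℂ) • M N true = M N true := by ext1 u; simp
  have m2 : (1 : ℂ) • ((1 : ℂ) • M N false + (0 : ℂ) • M N true) = M N false := by ext1 u; simp
  have G : ∀ l : List (ℂ × ℂ), (∀ p ∈ l, 0 < p.1.re ∧ 0 < p.2.re) →
      Good f x₀ (fun T z => Split f₀ f₁ T x₀ l z) ((l.map fun p =>
        NormedSpace.exp (p.1 • (M N false - M N true)) * NormedSpace.exp (p.2 • M N true)).prod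
        (sing N [])) := by
    intro l hl
    induction l with
    | nil => exact good_start f x₀
    | cons p l ih =>
      have hp := hl p List.mem_cons_self
      have := ((ih fun q hq => hl q (List.mem_cons_of_mem _ hq)).step f x₀ 0 1 (c := p.2)
        (fun e => by simp [e] at hp)).step f x₀ 1 (-1) (c := p.1) (fun e => by simp [e] at hp)
      rw [e0, e1, m0, m1] at this
      exact this
  have G1 := G l h2
  have G2 := (good_start (N := N) f x₀).step f x₀ 1 0 one_ne_zero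
  rw [e2, m2] at G2
  rw [← h3] at G1
  have hid : ContDiff ℂ (⊤ : ℕ∞) (id : EuclideanSpace ℂ (Fin d) → _) := contDiff_id
  obtain ⟨C1, hC1⟩ := G1.exp ⟨id, hid⟩
  obtain ⟨C2, hC2⟩ := G2.exp ⟨id, hid⟩
  obtain ⟨T₀, hT₀, H⟩ := (nhdsGT_basis (0 : ℝ)).eventually_iff.1
    (G1.ex.and (G2.ex.and (hC1.and hC2)))
  refine ⟨C2 + C1, T₀, hT₀, fun T hT => ?_⟩
  obtain ⟨h4, ⟨y, _, rfl, h5⟩, h6, h7⟩ := H hT
  rw [one_mul] at h5
  refine ⟨⟨y, h5⟩, h4, fun y z hy hz => ?_⟩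
  have h8 := h7 y ⟨_, rfl, by rw [one_mul]; exact hy⟩
  have h9 := h6 z hz
  rw [norm_sub_rev] at h9
  rw [add_mul]
  exact (norm_sub_le_norm_sub_add_norm_sub _ _ _).trans (add_le_add h8 h9)

end Pool.Agent.Results.MP_18dddc_an.Full
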